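import Pool.Agent.W927.BM.Main

/-!
The measure half of project BM without ergodicity: a measurable labelling gives a measurable set
that is invariant under the second generator and mapped to its complement by the first one.
-/

set_option autoImplicit false

noncomputable section

namespace Pool.Agent.Y560.BE

open MeasureTheory Pool.Agent.W927.BM

/-- discrete sigma algebra on labels -/
local instance instMSLab : MeasurableSpace Lab := ⊤

local instance : DiscreteMeasurableSpace Lab := ⟨fun _ => trivial⟩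

theorem neg_set (X : Type) [MeasurableSpace X] (μ : Measure X) [IsProbabilityMeasure μ]
    (T : ℤ → ℤ → X → X) (T0 : ∀ y, T 0 0 y = y)
    (Tadd : ∀ s t x z y, T (s + t) (x + z) y = T s x (T t z y))
    (Tmp : ∀ t x, MeasurePreserving (T t x) μ μ)
    (f : X → Lab) (hf : ∀ l, MeasurableSet (f ⁻¹' {l}))
    (hrule : ∀ᵐ y ∂μ, ∀ t x, Rule (fun t' x' => f (T t' x' y)) t x) :
    ∃ E : Set X, MeasurableSet E ∧ T 0 1 ⁻¹' E = E ∧ T 1 0 ⁻¹' E =ᵐ[μ] Eᶜ := by
  have h1 : S_DET1 := Pool.Agent.W290.BM.main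
  have h2 : S_DET2 := Pool.Agent.W227.BM.main
  have m1 : S_MT1 := Pool.Agent.W374.BMMT.mt1
  have m2 : S_MT2 := Pool.Agent.W374.BMMT.mt2
  have hfm : Measurable f := measurable_to_countable' hf
  -- configurations
  set σ : X → ℤ → ℤ → Lab := fun y t x => f (T t x y) with hσ
  have hσT : ∀ s z y t x, σ (T s z y) t x = σ y (t + s) (x + z) := by
    intro s z y t x
    simp only [hσ]
    rw [Tadd]
  set f1 : X → ℤ := fun y => sy3 (f (T (-1) 0 y)) (f (T (-1) (-1) y)) (f (T 0 0 y)) with hf1
  have hf1m : Measurable f1 := by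
    have hg : Measurable (fun p : Lab × Lab × Lab => sy3 p.1 p.2.1 p.2.2) := measurable_of_countable _
    have hp : Measurable (fun y => (f (T (-1) 0 y), f (T (-1) (-1) y), f (T 0 0 y))) :=
      (hfm.comp (Tmp _ _).measurable).prodMk
        ((hfm.comp (Tmp _ _).measurable).prodMk (hfm.comp (Tmp _ _).measurable))
    exact hg.comp hp
  have hsy : ∀ y t x, (lay1 (σ y)).sy t x = f1 (T t x y) := by
    intro y t x
    rw [sy_eq]
    simp only [hf1, hσ]
    rw [← Tadd, ← Tadd, ← Tadd]
    rw [show -1 + t = t - 1 by ring, show -1 + x = x - 1 by ring, zero_add, zero_add]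
  have hcol : ∀ y t x s, T t x (T s 0 y) = T (t + s) x y := by
    intro y t x s
    rw [← Tadd, add_zero]
  -- finite floors, layer 1
  have hFl1 : ∀ᵐ y ∂μ, ∀ t b, f1 (T t b y) = -1 →
      {y' | Fl (fun j => f1 (T t j y)) b y'}.Finite := by
    have h := m1 X μ (fun i => T 0 i) T0 (fun i j x => by
      have := Tadd 0 0 i j x; simpa using this) (fun i => Tmp 0 i) f1 hf1m
    rw [ae_all_iff]
    intro t
    filter_upwards [(Tmp t 0).quasiMeasurePreserving.ae h] with y hy b hb
    have h2 := hy b (by rw [hcol]; simpa using hb)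
    simpa only [hcol, zero_add] using h2
  have hFl2 : ∀ᵐ y ∂μ, ∀ t b, - f1 (T t (-b) y) = -1 →
      {y' | Fl (fun j => - f1 (T t (-j) y)) b y'}.Finite := by
    have h := m1 X μ (fun i => T 0 (-i)) T0 (fun i j x => by
      have := Tadd 0 0 (-i) (-j) x
      rw [show -(i + j) = -i + -j by ring]
      simpa using this) (fun i => Tmp 0 (-i)) (fun y => - f1 y) hf1m.neg
    rw [ae_all_iff]
    intro t
    filter_upwards [(Tmp t 0).quasiMeasurePreserving.ae h] with y hy b hb
    have h2 := hy b (by rw [hcol]; simpa using hb)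
    simpa only [hcol, zero_add] using h2
  -- matching, layer 1
  have hD1 : ∀ᵐ y ∂μ, ∀ t b, (lay1 (σ y)).U t b → ∃ a, Mt ((lay1 (σ y)).sy t) a b ∧
      b - a ≤ 4 * (512 : ℕ) * ({x | Fl ((lay1 (σ y)).sy t) b x}.ncard : ℤ) ∧
      col (σ y) t (a - 1) = col (σ y) t b := by
    filter_upwards [hrule, hFl1] with y hy hfl
    refine h1 512 (lay1 (σ y)) (col (σ y)) (fun t x => (hy t x).1) (fun t x => (hy t x).2.2) ?_
    intro t b hU
    have := hfl t b (by rw [← hsy]; exact sy_U hU)
    have e : (lay1 (σ y)).sy t = fun j => f1 (T t j y) := by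
      funext j; exact hsy y t j
    rw [e]; exact this
  -- matching, layer 2
  have hD2 : ∀ᵐ y ∂μ, ∀ t b, (lay2 (σ y)).U t b → ∃ a, Mt ((lay2 (σ y)).sy t) a b := by
    filter_upwards [hrule, hFl2] with y hy hfl t b hU
    have := h1 512 (lay2 (σ y)) (fun t x => col (σ y) (-t) (-x - 1))
      (fun t x => by have := (hy (-t) (-x)).2.1; simpa using this)
      (lay2_ColAt (σ y) (fun t x => (hy t x).2.2)) ?_ t b hU
    · obtain ⟨a, ha, _⟩ := this
      exact ⟨a, ha⟩
    · intro t b hU
      have e : (lay2 (σ y)).sy t = fun j => - f1 (T (-t) (-j) y) := by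
        funext j; rw [lay2_sy, hsy]
      rw [e]
      refine hfl (-t) b ?_
      have h3 := sy_U hU
      rw [e] at h3
      exact h3
  -- finitely many intervals
  have hM : ∀ᵐ y ∂μ, ∀ t j, {ab : ℤ × ℤ | Mt ((lay1 (σ y)).sy t) ab.1 ab.2 ∧
      ab.1 ≤ j ∧ j < ab.2}.Finite := by
    have hb : ∀ᵐ y ∂μ, ∀ α b, Mt (fun j => f1 (T 0 j y)) α b →
        b - α ≤ (4 * 512 : ℕ) * ({y' | Fl (fun j => f1 (T 0 j y)) b y'}.ncard : ℤ) := by
      filter_upwards [hD1, hrule] with y hy hru α b hab
      have e : (lay1 (σ y)).sy 0 = fun j => f1 (T 0 j y) := by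
        funext j; exact hsy y 0 j
      have hU : (lay1 (σ y)).U 0 b := by
        have h3 := hab.2.1
        rw [← e] at h3
        unfold Lay.sy at h3
        by_contra hc
        rw [if_neg hc] at h3
        split_ifs at h3
      obtain ⟨a, ha, hle, -⟩ := hy 0 b hU
      rw [e] at ha hle
      rw [Mt_unique hab ha]
      push_cast at hle ⊢
      exact hle
    have h := m2 X μ (fun i => T 0 i) T0 (fun i j x => by
      have := Tadd 0 0 i j x; simpa using this) (fun i => Tmp 0 i) f1 hf1m (4 * 512) hb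
    rw [ae_all_iff]
    intro t
    filter_upwards [(Tmp t 0).quasiMeasurePreserving.ae h] with y hy j
    have e : (lay1 (σ y)).sy t = fun j => f1 (T 0 j (T t 0 y)) := by
      funext j; rw [hcol, zero_add]; exact hsy y t j
    rw [e]
    exact hy j
  -- conclusion of the deterministic analysis
  have hC : ∀ᵐ y ∂μ, (∀ t, ∃ x, Un ((lay1 (σ y)).sy t) x) ∧
      (∀ t x x', Un ((lay1 (σ y)).sy t) x → Un ((lay1 (σ y)).sy t) x' →
        col (σ y) t x = col (σ y) t x') ∧
      (∀ t x x', Un ((lay1 (σ y)).sy t) x → Un ((lay1 (σ y)).sy (t + 1)) x' →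
        col (σ y) t x ≠ col (σ y) (t + 1) x') := by
    filter_upwards [hrule, hD1, hD2, hM] with y hy hd1 hd2 hm
    refine h2 (lay1 (σ y)) (col (σ y)) (fun t x => (hy t x).1.typ) (fun t x => (hy t x).2.2)
      (fun t b hU => ?_) (fun t a hD => ?_) hm
    · obtain ⟨a, ha, -, hc⟩ := hd1 t b hU
      exact ⟨a, ha, hc⟩
    · have hU : (lay2 (σ y)).U (-t) (-a) := by
        rw [lay2_U]; simpa using hD
      obtain ⟨a', ha'⟩ := hd2 _ _ hU
      refine ⟨-a', ?_⟩
      have e : (lay2 (σ y)).sy (-t) = fun j => - (lay1 (σ y)).sy t (-j) := by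
        funext j; rw [lay2_sy]; simp
      rw [e, Mt_neg] at ha'
      simpa using ha'
  -- the invariant set
  set E : Set X := {y | ∃ x, Un (fun j => f1 (T 0 j y)) x ∧ col (σ y) 0 x = true} with hE
  have hEm : MeasurableSet E := by
    have : E = ⋃ x : ℤ, ({y | Un (fun j => f1 (T 0 j y)) x} ∩ {y | col (σ y) 0 x = true}) := by
      ext y; simp [hE]
    rw [this]
    refine MeasurableSet.iUnion fun x => (measurableSet_Un (fun j => hf1m.comp (Tmp 0 j).measurable)
      x).inter ?_
    have hc : Measurable (fun y => col (σ y) 0 x) := by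
      have h4 : Measurable (fun l : Lab => l.2.2.1) := measurable_of_countable _
      exact h4.comp (hfm.comp (Tmp 0 x).measurable)
    exact hc (measurableSet_singleton true)
  have hEinv : T 0 1 ⁻¹' E = E := by
    have hT : ∀ j y, T 0 j (T 0 1 y) = T 0 (j + 1) y := by
      intro j y; rw [← Tadd]; simp
    ext y
    simp only [hE, Set.mem_preimage, Set.mem_ofPred_eq, hT]
    constructor
    · rintro ⟨x, hx, hc⟩
      have h5 := (Un_shift (fun j => f1 (T 0 j y)) 1 x).1 hx
      refine ⟨x + 1, h5, ?_⟩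
      have : col (σ (T 0 1 y)) 0 x = col (σ y) 0 (x + 1) := by
        unfold col; rw [hσT]; simp
      rw [← this]; exact hc
    · rintro ⟨x, hx, hc⟩
      refine ⟨x - 1, (Un_shift (fun j => f1 (T 0 j y)) 1 (x - 1)).2 (by simpa using hx), ?_⟩
      have : col (σ (T 0 1 y)) 0 (x - 1) = col (σ y) 0 x := by
        unfold col; rw [hσT]; simp
      rw [this]; exact hc
  have hflip : T 1 0 ⁻¹' E =ᵐ[μ] Eᶜ := by
    filter_upwards [hC] with y hy
    have e0 : (lay1 (σ y)).sy 0 = fun j => f1 (T 0 j y) := by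
      funext j; exact hsy y 0 j
    have e1 : (lay1 (σ y)).sy (0 + 1) = fun j => f1 (T 0 j (T 1 0 y)) := by
      funext j; rw [hcol, zero_add]; exact hsy y 1 j
    have ec : ∀ x, col (σ (T 1 0 y)) 0 x = col (σ y) (0 + 1) x := by
      intro x; unfold col; rw [hσT]; simp
    obtain ⟨g1, g2, g3⟩ := hy
    obtain ⟨x0, hx0⟩ := g1 0
    obtain ⟨x1, hx1⟩ := g1 (0 + 1)
    have hne := g3 0 x0 x1 hx0 hx1
    refine propext ?_
    change (T 1 0 y ∈ E) ↔ ¬ (y ∈ E)
    constructor
    · rintro ⟨x, hx, hc⟩ ⟨x', hx', hc'⟩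
      rw [ec] at hc
      rw [← e1] at hx
      rw [← e0] at hx'
      exact g3 0 x' x hx' hx (by rw [hc, hc'])
    · intro hn
      refine ⟨x1, by rw [← e1]; exact hx1, ?_⟩
      rw [ec]
      by_contra hc
      apply hn
      refine ⟨x0, by rw [← e0]; exact hx0, ?_⟩
      by_contra hc'
      simp only [Bool.not_eq_true] at hc hc'
      exact hne (by rw [hc, hc'])
  exact ⟨E, hEm, hEinv, hflip⟩

end Pool.Agent.Y560.BE

end
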