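import Pool.Agent.Y560.BE.Erg
import Pool.Agent.Y560.BE.Neg
import Pool.Agent.W927.BM.Own

/-!
For every countable group containing a copy of `ℤ²` there is a locally checkable labelling problem
in `BAIRE` without measurable solution for the Bernoulli shift.
-/

set_option autoImplicit false

noncomputable section

namespace Pool.Agent.Y560.BE

open MeasureTheory Pool.Agent.W927.BM

variable {Γ : Type} [AddGroup Γ] (u v : Γ)

/-- The element of the subgroup. -/
def em (t x : ℤ) : Γ := t • u + x • v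

/-- The data: commuting elements generating a free abelian group of rank two. -/
structure Fr (u v : Γ) : Prop where
  comm : u + v = v + u
  free : ∀ t x : ℤ, t • u + x • v = 0 → t = 0 ∧ x = 0

variable {u v}

theorem Fr.em_add (d : Fr u v) (s t x z : ℤ) : em u v (s + t) (x + z) = em u v s x + em u v t z := by
  unfold em
  have h1 : AddCommute (x • v) (t • u) :=
    (AddCommute.zsmul_zsmul (show AddCommute v u from d.comm.symm) x t)
  rw [add_zsmul, add_zsmul]
  calc s • u + t • u + (x • v + z • v) = s • u + (t • u + x • v) + z • v := by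
        simp only [add_assoc]
    _ = s • u + (x • v + t • u) + z • v := by rw [h1.eq]
    _ = s • u + x • v + (t • u + z • v) := by simp only [add_assoc]

theorem em_zero : em u v 0 0 = 0 := by
  unfold em
  simp

theorem Fr.em_eq_zero (d : Fr u v) {t x : ℤ} (h : em u v t x = 0) : t = 0 ∧ x = 0 :=
  d.free t x h

variable (u v)

open Classical in
/-- the window -/
def winG : Finset Γ :=
  (Finset.Icc (-2 : ℤ) 2 ×ˢ Finset.Icc (-2 : ℤ) 2).image (fun p => em u v p.1 p.2)

variable {u v}

theorem mem_winG {t x : ℤ} (ht : |t| ≤ 2) (hx : |x| ≤ 2) : em u v t x ∈ winG u v := by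
  classical
  rw [abs_le] at ht hx
  exact Finset.mem_image.2 ⟨(t, x), by simp only [Finset.mem_product, Finset.mem_Icc]; omega, rfl⟩

open Classical in
/-- configuration on the grid from a window -/
def extG {k : ℕ} (e : Fin k ≃ Lab) (w : winG u v → Fin k) (t x : ℤ) : Lab :=
  if h : em u v t x ∈ winG u v then e (w ⟨em u v t x, h⟩) else chk false

theorem extG_eq {k : ℕ} (e : Fin k ≃ Lab) (w : winG u v → Fin k) {t x : ℤ} (ht : |t| ≤ 2)
    (hx : |x| ≤ 2) : extG e w t x = e (w ⟨em u v t x, mem_winG ht hx⟩) := by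
  unfold extG
  rw [dif_pos (mem_winG ht hx)]

variable {k : ℕ} (eLab : Fin k ≃ Lab)

variable (u v) in
/-- the labelling problem -/
def PG : LCLP Γ where
  W := winG u v
  k := k
  A := {w | Rule (extG eLab w) 0 0}

theorem Fr.PG_iff (d : Fr u v) {X : Type} {a : Γ → X → X}
    (hadd : ∀ g h x, a (g + h) x = a g (a h x)) (f : X → Fin k) :
    (PG u v eLab).IsLabelling a f ↔
      ∀ y t x, Rule (fun t' x' => eLab (f (a (em u v t' x') y))) t x := by
  constructor
  · intro h y t x
    have h1 : Rule (extG eLab fun σ : winG u v => f (a σ.1 (a (em u v t x) y))) 0 0 := h _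
    refine Rule_congr (t := 0) (x := 0) (t' := t) (x' := x) ?_ h1
    intro s z hs hz
    rw [zero_add, zero_add, extG_eq eLab _ hs hz]
    change eLab (f (a (em u v s z) (a (em u v t x) y))) = eLab (f (a (em u v (t + s) (x + z)) y))
    rw [← hadd, ← d.em_add, add_comm s t, add_comm z x]
  · intro h y
    change Rule (extG eLab fun σ : winG u v => f (a σ.1 y)) 0 0
    refine Rule_congr (t := 0) (x := 0) (t' := 0) (x' := 0) ?_ (h y 0 0)
    intro s z hs hz
    rw [zero_add, zero_add, extG_eq eLab _ hs hz]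

theorem Fr.inBaire (d : Fr u v) : (PG u v eLab).InBaire := by
  classical
  intro X _ _ _ _ a ha
  set T : ℤ → ℤ → X → X := fun t x => a (em u v t x) with hT
  have T0 : ∀ y, T 0 0 y = y := fun y => by simp only [hT, em_zero, ha.zero]
  have Tadd : ∀ s t x z y, T (s + t) (x + z) y = T s x (T t z y) := fun s t x z y => by
    simp only [hT, d.em_add, ha.add]
  have Tfree : ∀ t x y, T t x y = y → t = 0 ∧ x = 0 := fun t x y h =>
    d.em_eq_zero (ha.free _ _ h)
  obtain ⟨f, G, hf, hG, hGinv, hGres, hGR⟩ := pos X T T0 Tadd (fun t x => ha.meas _) Tfree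
  obtain ⟨γ, hγ⟩ := exists_cocycle (Γ := ℤ × ℤ) (a := fun p y => T p.1 p.2 y) T0
    (fun g h x => Tadd _ _ _ _ _) (fun g x h => by
      obtain ⟨h1, h2⟩ := Tfree _ _ _ h
      exact Prod.ext h1 h2)
  let c : X → Bool := fun y => decide ((γ y).1 % 2 = 0)
  have hGinv' : ∀ t x y, y ∉ G → T t x y ∉ G := by
    intro t x y hy h
    apply hy
    have h1 := hGinv (-t) (-x) _ h
    rwa [← Tadd, neg_add_cancel, neg_add_cancel, T0] at h1
  refine ⟨fun y => eLab.symm (if y ∈ G then f y else chk (c y)), ?_, ?_⟩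
  · intro i
    have h1 : BaireMeasurableSet (f ⁻¹' {eLab i}) := (hf _).baireMeasurableSet
    refine h1.congr ?_
    filter_upwards [hGres] with y hy
    refine propext ?_
    change f y = eLab i ↔ eLab.symm (if y ∈ G then f y else chk (c y)) = i
    rw [if_pos hy]
    exact (Equiv.symm_apply_eq eLab).symm
  · rw [d.PG_iff eLab ha.add]
    intro y t x
    simp only [Equiv.apply_symm_apply]
    by_cases hy : y ∈ G
    · have e : (fun t' x' => if a (em u v t' x') y ∈ G then f (a (em u v t' x') y) else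
          chk (c (a (em u v t' x') y))) = fun t' x' => f (T t' x' y) := by
        funext t' x'
        rw [if_pos (hGinv t' x' y hy)]
      rw [e]
      exact hGR y hy t x
    · have e : (fun t' x' => if a (em u v t' x') y ∈ G then f (a (em u v t' x') y) else
          chk (c (a (em u v t' x') y))) = fun t' x' => chk (c (T t' x' y)) := by
        funext t' x'
        rw [if_neg (hGinv' t' x' y hy)]
      rw [e]
      refine chk_rule (c := fun t' x' => c (T t' x' y)) (fun _ _ => rfl) ?_ t x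
      intro t x z h
      have h1 : ∀ s w : ℤ, γ (T s w y) = (s, w) + γ y := fun s w => hγ (s, w) y
      simp only [c, h1, Prod.fst_add, decide_eq_decide] at h
      omega

/-- `P` has a measurable labelling for every free Borel action that preserves a probability
measure. -/
def InPMP (P : LCLP Γ) : Prop :=
  ∀ (X : Type) [MeasurableSpace X] [StandardBorelSpace X] (a : Γ → X → X), FreeBorel a →
    ∀ (μ : Measure X), IsProbabilityMeasure μ → (∀ g, MeasurePreserving (a g) μ μ) →
    ∃ f : X → Fin P.k, (∀ i, NullMeasurableSet (f ⁻¹' {i}) μ) ∧ P.IsLabelling a f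

/-- The free part of the Bernoulli shift. -/
def FP (Γ : Type) [AddGroup Γ] : Set (Γ → unitInterval) := {ω | ∀ g : Γ, g ≠ 0 → sh g ω ≠ ω}

theorem meas_FP [Countable Γ] : MeasurableSet (FP Γ) := by
  have : FP Γ = ⋂ g : Γ, {ω | g ≠ 0 → sh g ω ≠ ω} := by
    ext ω
    simp only [FP, Set.mem_iInter, Set.mem_ofPred_eq]
  rw [this]
  refine MeasurableSet.iInter fun g => ?_
  by_cases hg : g = 0
  · simp [hg]
  · have : {ω : Γ → unitInterval | g ≠ 0 → sh g ω ≠ ω} = {ω | sh g ω = ω}ᶜ := by
      ext ω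
      simp [hg]
    rw [this]
    exact (measurableSet_eq_fun (meas_sh g) measurable_id).compl

theorem null_FP [Countable Γ] : (bm Γ) (FP Γ)ᶜ = 0 := by
  have : (FP Γ)ᶜ ⊆ ⋃ g : {g : Γ // g ≠ 0}, {ω | sh g.1 ω = ω} := by
    intro ω hω
    simp only [FP, Set.mem_compl_iff, Set.mem_ofPred_eq, not_forall, not_not] at hω
    obtain ⟨g, hg, h⟩ := hω
    exact Set.mem_iUnion.2 ⟨⟨g, hg⟩, h⟩
  exact measure_mono_null this (measure_iUnion_null fun g => free_sh g.2)

theorem inv_FP {g : Γ} {ω : Γ → unitInterval} (h : ω ∈ FP Γ) : sh g ω ∈ FP Γ := by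
  intro k hk hc
  have h1 : sh (-g + k + g) ω = ω := by
    rw [sh_add, sh_add, hc, ← sh_add, neg_add_cancel, sh_zero]
  refine h (-g + k + g) (fun h2 => hk ?_) h1
  have h3 : k = g + (-g + k + g) + -g := by
    rw [add_assoc (-g) k g, ← add_assoc g (-g), add_neg_cancel, zero_add, add_assoc,
      add_neg_cancel, add_zero]
  rw [h3, h2, add_zero, add_neg_cancel]

theorem inv_FP' {g : Γ} {ω : Γ → unitInterval} (h : sh g ω ∈ FP Γ) : ω ∈ FP Γ := by
  have := inv_FP (g := -g) h
  rwa [← sh_add, neg_add_cancel, sh_zero] at this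

/-- The action on the free part. -/
def af (g : Γ) (y : FP Γ) : FP Γ := ⟨sh g y.1, inv_FP y.2⟩

theorem Fr.not_pmp [Countable Γ] (d : Fr u v) : ¬ InPMP (PG u v eLab) := by
  classical
  intro H
  have : StandardBorelSpace (FP Γ) := meas_FP.standardBorel
  have hv : ∀ n : ℕ, (n + 1) • v ≠ 0 := by
    intro n h
    have h1 : (0 : ℤ) • u + ((n + 1 : ℕ) : ℤ) • v = 0 := by
      rw [zero_smul, zero_add, natCast_zsmul, h]
    have := (d.free _ _ h1).2
    omega
  have ha : FreeBorel (af (Γ := Γ)) := by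
    refine ⟨fun y => Subtype.ext (sh_zero _), fun g h y => Subtype.ext (sh_add _ _ _),
      fun g => Measurable.subtype_mk ((meas_sh g).comp measurable_subtype_coe), ?_⟩
    intro g y h
    by_contra hg
    exact y.2 g hg (congrArg Subtype.val h)
  set μ : Measure (FP Γ) := (bm Γ).comap Subtype.val with hμ
  have hme : MeasurableEmbedding (Subtype.val : FP Γ → (Γ → unitInterval)) :=
    MeasurableEmbedding.subtype_coe meas_FP
  have hap : ∀ s : Set (FP Γ), μ s = bm Γ (Subtype.val '' s) := fun s => hme.comap_apply _ _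
  have hpr : IsProbabilityMeasure μ := by
    refine ⟨?_⟩
    rw [hap, Set.image_univ, Subtype.range_coe]
    exact (prob_compl_eq_zero_iff meas_FP).1 null_FP
  have hmp : ∀ g, MeasurePreserving (af g) μ μ := by
    intro g
    refine ⟨ha.meas g, ?_⟩
    ext s hs
    rw [Measure.map_apply (ha.meas g) hs, hap, hap]
    have h1 : Subtype.val '' (af g ⁻¹' s) = sh g ⁻¹' (Subtype.val '' s) := by
      ext ω
      constructor
      · rintro ⟨y, hy, rfl⟩
        exact ⟨af g y, hy, rfl⟩
      · rintro ⟨y, hy, hyω⟩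
        have h2 : ω ∈ FP Γ := inv_FP' (g := g) (hyω ▸ y.2)
        refine ⟨⟨ω, h2⟩, ?_, rfl⟩
        have h3 : af g ⟨ω, h2⟩ = y := Subtype.ext hyω.symm
        show af g ⟨ω, h2⟩ ∈ s
        rw [h3]
        exact hy
    rw [h1, (mp_sh g).measure_preimage (hme.measurableSet_image.2 hs).nullMeasurableSet]
  obtain ⟨f, hf, hfP⟩ := H (FP Γ) af ha μ hpr hmp
  have hR := (d.PG_iff eLab ha.add f).1 hfP
  let _ : MeasurableSpace Lab := ⊤
  have _ : DiscreteMeasurableSpace Lab := ⟨fun _ => trivial⟩
  let f' : (Γ → unitInterval) → Lab := fun ω => if h : ω ∈ FP Γ then eLab (f ⟨ω, h⟩) else chk false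
  have hfn : NullMeasurable f' (bm Γ) := by
    have h1 : ∀ l, NullMeasurableSet (f' ⁻¹' {l}) (bm Γ) := by
      intro l
      have h2 : NullMeasurableSet (Subtype.val '' (f ⁻¹' {eLab.symm l})) (bm Γ) :=
        Measure.NullMeasurableSet.subtype_coe meas_FP.nullMeasurableSet (hf _)
      refine h2.congr ?_
      filter_upwards [compl_mem_ae_iff.2 null_FP] with ω hω
      have hω' : ω ∈ FP Γ := not_not.1 hω
      refine propext ?_
      change (ω ∈ Subtype.val '' (f ⁻¹' {eLab.symm l})) ↔ f' ω = l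
      have h3 : f' ω = eLab (f ⟨ω, hω'⟩) := dif_pos hω'
      rw [h3]
      constructor
      · rintro ⟨y, hy, rfl⟩
        exact ((Equiv.eq_symm_apply eLab).1 hy)
      · intro h
        exact ⟨⟨ω, hω'⟩, (Equiv.eq_symm_apply eLab).2 h, rfl⟩
    intro s _
    have : f' ⁻¹' s = ⋃ l ∈ s, f' ⁻¹' {l} := by
      ext y; simp
    rw [this]
    exact NullMeasurableSet.biUnion (Set.to_countable s) fun l _ => h1 l
  obtain ⟨g, hg, hfg⟩ := hfn.aemeasurable
  set T : ℤ → ℤ → (Γ → unitInterval) → (Γ → unitInterval) := fun t x => sh (em u v t x) with hT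
  refine neg (Γ → unitInterval) (bm Γ) T (fun y => ?_) (fun s t x z y => ?_)
    (fun t x => mp_sh _) ?_ ⟨g, fun l => hg (measurableSet_singleton l), ?_⟩
  · simp only [hT, em_zero, sh_zero]
  · simp only [hT, d.em_add, sh_add]
  · have : T 0 1 = sh v := by
      simp only [hT, em, zero_smul, one_smul, zero_add]
    rw [this]
    exact erg_sh v hv
  · have h1 : ∀ᵐ y ∂(bm Γ), ∀ t x, f' (T t x y) = g (T t x y) := by
      rw [ae_all_iff]; intro t
      rw [ae_all_iff]; intro x
      exact (mp_sh (em u v t x)).quasiMeasurePreserving.ae (p := fun y => f' y = g y) hfg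
    filter_upwards [h1, compl_mem_ae_iff.2 null_FP] with ω h2 hω
    have hω' : ω ∈ FP Γ := not_not.1 hω
    intro t x
    have e : (fun t' x' => g (T t' x' ω)) = fun t' x' => eLab (f (af (em u v t' x') ⟨ω, hω'⟩)) := by
      funext t' x'
      rw [← h2]
      exact dif_pos (inv_FP hω')
    rw [e]
    exact hR ⟨ω, hω'⟩ t x

theorem Fr.pat (d : Fr u v) {X : Type} {a : Γ → X → X}
    (hadd : ∀ g h x, a (g + h) x = a g (a h x)) (f : X → Fin k) (y : X) (t x : ℤ)
    (h : (fun σ : winG u v => f (a σ.1 (a (em u v t x) y))) ∈ (PG u v eLab).A) :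
    Rule (fun t' x' => eLab (f (a (em u v t' x') y))) t x := by
  have h1 : Rule (extG eLab fun σ : winG u v => f (a σ.1 (a (em u v t x) y))) 0 0 := h
  refine Rule_congr (t := 0) (x := 0) (t' := t) (x' := x) ?_ h1
  intro s z hs hz
  rw [zero_add, zero_add, extG_eq eLab _ hs hz]
  change eLab (f (a (em u v s z) (a (em u v t x) y))) = eLab (f (a (em u v (t + s) (x + z)) y))
  rw [← hadd, ← d.em_add, add_comm s t, add_comm z x]

theorem Fr.set_of_label (d : Fr u v) {X : Type} [MeasurableSpace X]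
    {a : Γ → X → X} (h0 : ∀ x, a 0 x = x) (hadd : ∀ g h x, a (g + h) x = a g (a h x))
    {μ : Measure X} [IsProbabilityMeasure μ] (hmp : ∀ g, MeasurePreserving (a g) μ μ)
    (f : X → Fin k) (hf : ∀ i, NullMeasurableSet (f ⁻¹' {i}) μ)
    (hP : ∀ᵐ y ∂μ, (fun σ : winG u v => f (a σ.1 y)) ∈ (PG u v eLab).A) :
    ∃ E : Set X, MeasurableSet E ∧ a v ⁻¹' E = E ∧ a u ⁻¹' E =ᵐ[μ] Eᶜ := by
  classical
  let _ : MeasurableSpace Lab := ⊤
  have _ : DiscreteMeasurableSpace Lab := ⟨fun _ => trivial⟩
  let f' : X → Lab := fun y => eLab (f y)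
  have hfn : NullMeasurable f' μ := by
    have h1 : ∀ l, NullMeasurableSet (f' ⁻¹' {l}) μ := by
      intro l
      have : f' ⁻¹' {l} = f ⁻¹' {eLab.symm l} := by
        ext y
        exact (Equiv.eq_symm_apply eLab).symm
      rw [this]
      exact hf _
    intro s _
    have : f' ⁻¹' s = ⋃ l ∈ s, f' ⁻¹' {l} := by
      ext y; simp
    rw [this]
    exact NullMeasurableSet.biUnion (Set.to_countable s) fun l _ => h1 l
  obtain ⟨g, hg, hfg⟩ := hfn.aemeasurable
  set T : ℤ → ℤ → X → X := fun t x => a (em u v t x) with hT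
  obtain ⟨E, hE, h1, h2⟩ := neg_set X μ T (fun y => by simp only [hT, em_zero, h0])
    (fun s t x z y => by simp only [hT, d.em_add, hadd]) (fun t x => hmp _) g
    (fun l => hg (measurableSet_singleton l)) (by
      have h1 : ∀ᵐ y ∂μ, ∀ t x, f' (T t x y) = g (T t x y) := by
        rw [ae_all_iff]; intro t
        rw [ae_all_iff]; intro x
        exact (hmp (em u v t x)).quasiMeasurePreserving.ae (p := fun y => f' y = g y) hfg
      have h2 : ∀ᵐ y ∂μ, ∀ t x : ℤ,
          (fun σ : winG u v => f (a σ.1 (a (em u v t x) y))) ∈ (PG u v eLab).A := by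
        rw [ae_all_iff]; intro t
        rw [ae_all_iff]; intro x
        exact (hmp (em u v t x)).quasiMeasurePreserving.ae
          (p := fun y => (fun σ : winG u v => f (a σ.1 y)) ∈ (PG u v eLab).A) hP
      filter_upwards [h1, h2] with y h3 h4
      intro t x
      have e : (fun t' x' => g (T t' x' y)) = fun t' x' => eLab (f (a (em u v t' x') y)) := by
        funext t' x'
        rw [← h3]
      rw [e]
      exact d.pat eLab hadd f y t x (h4 t x))
  have e1 : T 0 1 = a v := by
    simp only [hT, em, zero_smul, one_smul, zero_add]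
  have e2 : T 1 0 = a u := by
    simp only [hT, em, zero_smul, one_smul, add_zero]
  rw [e1] at h1
  rw [e2] at h2
  exact ⟨E, hE, h1, h2⟩

theorem Fr.label_of_set (d : Fr u v) {X : Type} [MeasurableSpace X]
    {a : Γ → X → X} (ha : FreeBorel a)
    {μ : Measure X} (hmp : ∀ g, Measure.QuasiMeasurePreserving (a g) μ μ)
    {E : Set X} (hE : MeasurableSet E) (h1 : a v ⁻¹' E =ᵐ[μ] E) (h2 : a u ⁻¹' E =ᵐ[μ] Eᶜ) :
    ∃ f : X → Fin k, (∀ i, NullMeasurableSet (f ⁻¹' {i}) μ) ∧ (PG u v eLab).IsLabelling a f := by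
  classical
  set T : ℤ → ℤ → X → X := fun t x => a (em u v t x) with hT
  have T0 : ∀ y, T 0 0 y = y := fun y => by simp only [hT, em_zero, ha.zero]
  have Tadd : ∀ s t x z y, T (s + t) (x + z) y = T s x (T t z y) := fun s t x z y => by
    simp only [hT, d.em_add, ha.add]
  have Tfree : ∀ t x y, T t x y = y → t = 0 ∧ x = 0 := fun t x y h =>
    d.em_eq_zero (ha.free _ _ h)
  obtain ⟨γ, hγ⟩ := exists_cocycle (Γ := ℤ × ℤ) (a := fun p y => T p.1 p.2 y) T0
    (fun g h x => Tadd _ _ _ _ _) (fun g x h => by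
      obtain ⟨h1, h2⟩ := Tfree _ _ _ h
      exact Prod.ext h1 h2)
  have hγ' : ∀ s w y, γ (T s w y) = (s, w) + γ y := fun s w y => hγ (s, w) y
  set G : Set X := {y | ∀ t x, (T (t + 1) x y ∈ E ↔ ¬ T t x y ∈ E) ∧
    (T t (x + 1) y ∈ E ↔ T t x y ∈ E)} with hG
  have e1 : T 0 1 = a v := by
    simp only [hT, em, zero_smul, one_smul, zero_add]
  have e2 : T 1 0 = a u := by
    simp only [hT, em, zero_smul, one_smul, add_zero]
  have hGae : ∀ᵐ y ∂μ, y ∈ G := by
    have h3 : ∀ᵐ y ∂μ, (T 0 1 y ∈ E ↔ y ∈ E) := by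
      filter_upwards [h1] with y hy
      rw [e1]
      exact iff_of_eq hy
    have h4 : ∀ᵐ y ∂μ, (T 1 0 y ∈ E ↔ ¬ y ∈ E) := by
      filter_upwards [h2] with y hy
      rw [e2]
      exact iff_of_eq hy
    have h5 : ∀ᵐ y ∂μ, ∀ t x, (T 0 1 (T t x y) ∈ E ↔ T t x y ∈ E) ∧
        (T 1 0 (T t x y) ∈ E ↔ ¬ T t x y ∈ E) := by
      rw [ae_all_iff]; intro t
      rw [ae_all_iff]; intro x
      exact (hmp (em u v t x)).ae (p := fun y => (T 0 1 y ∈ E ↔ y ∈ E) ∧
        (T 1 0 y ∈ E ↔ ¬ y ∈ E)) (h3.and h4)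
    filter_upwards [h5] with y hy t x
    obtain ⟨h6, h7⟩ := hy t x
    rw [← Tadd, zero_add, add_comm 1 x] at h6
    rw [← Tadd, zero_add, add_comm 1 t] at h7
    exact ⟨h7, h6⟩
  have hGinv : ∀ s z y, y ∈ G → T s z y ∈ G := by
    intro s z y hy t x
    obtain ⟨h6, h7⟩ := hy (t + s) (x + z)
    refine ⟨?_, ?_⟩
    · rw [← Tadd, ← Tadd, show t + 1 + s = t + s + 1 by ring]
      exact h6
    · rw [← Tadd, ← Tadd, show x + 1 + z = x + z + 1 by ring]
      exact h7
  have hGinv' : ∀ t x y, y ∉ G → T t x y ∉ G := by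
    intro t x y hy h
    apply hy
    have h1 := hGinv (-t) (-x) _ h
    rwa [← Tadd, neg_add_cancel, neg_add_cancel, T0] at h1
  let c : X → Bool := fun y => if y ∈ G then decide (y ∈ E) else decide ((γ y).1 % 2 = 0)
  refine ⟨fun y => eLab.symm (chk (c y)), ?_, ?_⟩
  · intro i
    have h3 : MeasurableSet {y | chk (decide (y ∈ E)) = eLab i} := by
      have : {y | chk (decide (y ∈ E)) = eLab i} =
          (E ∩ {_y | chk true = eLab i}) ∪ (Eᶜ ∩ {_y | chk false = eLab i}) := by
        ext y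
        by_cases hy : y ∈ E <;> simp [hy]
      rw [this]
      exact (hE.inter (MeasurableSet.const _)).union (hE.compl.inter (MeasurableSet.const _))
    refine h3.nullMeasurableSet.congr ?_
    filter_upwards [hGae] with y hy
    refine propext ?_
    change chk (decide (y ∈ E)) = eLab i ↔ eLab.symm (chk (c y)) = i
    have : c y = decide (y ∈ E) := if_pos hy
    rw [this]
    exact (Equiv.symm_apply_eq eLab).symm
  · rw [d.PG_iff eLab ha.add]
    intro y t x
    simp only [Equiv.apply_symm_apply]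
    refine chk_rule (c := fun t' x' => c (T t' x' y)) (fun _ _ => rfl) ?_ t x
    intro t x z
    by_cases hy : y ∈ G
    · have hc : ∀ t x, c (T t x y) = decide (T t x y ∈ E) := fun t x => if_pos (hGinv t x y hy)
      have hx : ∀ t x : ℤ, (T t x y ∈ E ↔ T t 0 y ∈ E) := by
        intro t x
        induction x using Int.induction_on with
        | zero => exact Iff.rfl
        | succ n ih => exact (hy t n).2.trans ih
        | pred n ih =>
          have := (hy t (-n - 1)).2
          rw [sub_add_cancel] at this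
          exact this.symm.trans ih
      change c (T (t + 1) x y) ≠ c (T t z y)
      rw [hc, hc]
      intro h
      have h3 := decide_eq_decide.1 h
      rw [(hy t x).1, hx t x, hx t z] at h3
      tauto
    · have hc : ∀ t x, c (T t x y) = decide ((γ (T t x y)).1 % 2 = 0) :=
        fun t x => if_neg (hGinv' t x y hy)
      change c (T (t + 1) x y) ≠ c (T t z y)
      rw [hc, hc]
      intro h
      simp only [hγ', Prod.fst_add, decide_eq_decide] at h
      omega

/-- The theorem. -/
theorem main [Countable Γ] (d : Fr u v) : ∃ P : LCLP Γ, P.InBaire ∧ ¬ InPMP P ∧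
    ∀ (X : Type) [MeasurableSpace X] (a : Γ → X → X), FreeBorel a →
      ∀ (μ : Measure X), IsProbabilityMeasure μ → (∀ g, MeasurePreserving (a g) μ μ) →
      ((∃ f : X → Fin P.k, (∀ i, NullMeasurableSet (f ⁻¹' {i}) μ) ∧ P.IsLabelling a f) ↔
        ∃ E : Set X, MeasurableSet E ∧ a v ⁻¹' E =ᵐ[μ] E ∧ a u ⁻¹' E =ᵐ[μ] Eᶜ) := by
  obtain ⟨k, ⟨e⟩⟩ : ∃ k, Nonempty (Fin k ≃ Lab) := ⟨_, ⟨(Fintype.equivFin Lab).symm⟩⟩
  refine ⟨PG u v e, d.inBaire e, d.not_pmp e, ?_⟩
  intro X _ a ha μ _ hmp
  constructor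
  · rintro ⟨f, hf, hP⟩
    obtain ⟨E, h1, h2, h3⟩ := d.set_of_label e ha.zero ha.add hmp f hf
      (Filter.Eventually.of_forall hP)
    exact ⟨E, h1, Filter.EventuallyEq.of_eq h2, h3⟩
  · rintro ⟨E, h1, h2, h3⟩
    exact d.label_of_set e ha (fun g => (hmp g).quasiMeasurePreserving) h1 h2 h3

end Pool.Agent.Y560.BE
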