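import Mathlib

/-!
Ergodicity and freeness of Bernoulli shifts of countable groups.
-/

set_option autoImplicit false

namespace Pool.Agent.Y560.BE

open MeasureTheory Filter Set

section erg

open scoped symmDiff

variable {ι Z : Type} [MeasurableSpace Z] (ν : Measure Z) [IsProbabilityMeasure ν] (σ : ι ≃ ι)

/-- The coordinate map. -/
def cm (y : ι → Z) : ι → Z := fun i => y (σ i)

theorem cm_iter (n : ℕ) : ∀ y : ι → Z, (cm σ)^[n] y = fun i => y (σ^[n] i) := by
  induction n with
  | zero => intro y; rfl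
  | succ n ih =>
    intro y
    rw [Function.iterate_succ_apply, ih]
    funext i
    show y (σ (σ^[n] i)) = y (σ^[n + 1] i)
    rw [Function.iterate_succ_apply']

theorem mp_cm : MeasurePreserving (cm (Z := Z) σ) (Measure.infinitePi fun _ : ι => ν)
    (Measure.infinitePi fun _ : ι => ν) := by
  refine ⟨measurable_pi_lambda _ fun i => measurable_pi_apply _, ?_⟩
  exact Measure.map_infinitePi_infinitePi_of_inj (P := fun _ : ι => ν) σ.injective

theorem indep (s t : Finset ι) (hst : Disjoint s t) (S : Set ((i : s) → Z))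
    (T : Set ((i : t) → Z)) (hS : MeasurableSet S) (hT : MeasurableSet T) :
    (Measure.infinitePi fun _ : ι => ν) (cylinder s S ∩ cylinder t T) =
      (Measure.infinitePi fun _ : ι => ν) (cylinder s S) *
        (Measure.infinitePi fun _ : ι => ν) (cylinder t T) := by
  have h : ProbabilityTheory.iIndepFun (fun (i : ι) (ω : ι → Z) => ω i)
      (Measure.infinitePi fun _ : ι => ν) :=
    ProbabilityTheory.iIndepFun_infinitePi (P := fun _ : ι => ν) (X := fun _ x => x)
      (fun _ => measurable_id)
  have h2 := h.indepFun_finset s t hst (fun i => measurable_pi_apply i)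
  exact h2.measure_inter_preimage_eq_mul S T hS hT

variable [DecidableEq ι]

theorem shift_cyl (s : Finset ι) (S : Set ((i : s) → Z)) (hS : MeasurableSet S) (n : ℕ) :
    ∃ T : Set ((i : ↥(s.image (σ^[n]))) → Z), MeasurableSet T ∧
      (cm σ)^[n] ⁻¹' (cylinder s S) = cylinder (s.image (σ^[n])) T := by
  refine ⟨(fun (w : ↥(s.image (σ^[n])) → Z) (i : s) =>
    w ⟨σ^[n] i.1, Finset.mem_image_of_mem _ i.2⟩) ⁻¹' S, ?_, ?_⟩
  · refine MeasurableSet.preimage hS ?_
    exact measurable_pi_lambda _ fun i => measurable_pi_apply _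
  · ext y
    show s.restrict ((cm σ)^[n] y) ∈ S ↔ _
    rw [cm_iter]
    exact Iff.rfl

theorem sq_of (hσ : ∀ s : Finset ι, ∃ n : ℕ, Disjoint s (s.image (σ^[n]))) (A : Set (ι → Z))
    (hA : MeasurableSet A) (hinv : cm σ ⁻¹' A = A) :
    (Measure.infinitePi fun _ : ι => ν).real A = (Measure.infinitePi fun _ : ι => ν).real A *
      (Measure.infinitePi fun _ : ι => ν).real A := by
  set mu := Measure.infinitePi fun _ : ι => ν with hmu
  have key : ∀ ε : ℝ, 0 < ε → |mu.real A - mu.real A * mu.real A| ≤ 4 * ε := by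
    intro ε hε
    have hdense : mu.MeasureDense (measurableCylinders (fun _ : ι => Z)) :=
      Measure.MeasureDense.of_generateFrom_isSetAlgebra_finite mu
        isSetAlgebra_measurableCylinders generateFrom_measurableCylinders.symm
    obtain ⟨B, hB, hAB⟩ := hdense.approx A hA (measure_ne_top mu A) ε hε
    have hAB' : mu.real (A ∆ B) ≤ ε := by
      rw [measureReal_def]
      exact ENNReal.toReal_le_of_le_ofReal hε.le hAB.le
    have hBm : MeasurableSet B := hdense.measurable B hB
    obtain ⟨s, S, hS, rfl⟩ := (mem_measurableCylinders B).mp hB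
    obtain ⟨n, hn⟩ := hσ s
    obtain ⟨T, hT, hT'⟩ := shift_cyl (Z := Z) σ s S hS n
    have hmp : MeasurePreserving ((cm σ)^[n]) mu mu := (mp_cm ν σ).iterate n
    have hAn : (cm σ)^[n] ⁻¹' A = A := Function.IsFixedPt.preimage_iterate hinv n
    set B : Set (ι → Z) := cylinder (α := fun _ : ι => Z) s S with hBd
    set B' := (cm σ)^[n] ⁻¹' B with hB'
    have hBm' : MeasurableSet B' := hmp.measurable hBm
    have e1 : mu B' = mu B := hmp.measure_preimage hBm.nullMeasurableSet
    have e2 : mu (B ∩ B') = mu B * mu B' := by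
      rw [hT']
      exact indep ν s _ hn S T hS hT
    have e2' : mu.real (B ∩ B') = mu.real B * mu.real B := by
      rw [measureReal_def, e2, e1, ENNReal.toReal_mul]
      rfl
    have e3 : mu.real (A ∆ B') ≤ ε := by
      have : A ∆ B' = (cm σ)^[n] ⁻¹' (A ∆ B) := by
        rw [Set.preimage_symmDiff, hAn]
      rw [this, measureReal_def, hmp.measure_preimage (hA.symmDiff hBm).nullMeasurableSet]
      exact hAB'
    have e4 : mu.real (A ∆ (B ∩ B')) ≤ 2 * ε := by
      have hsub : A ∆ (B ∩ B') ⊆ (A ∆ B) ∪ (A ∆ B') := by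
        intro x hx
        rcases hx with ⟨h1, h2⟩ | ⟨h1, h2⟩
        · by_cases h3 : x ∈ B
          · exact Or.inr (Or.inl ⟨h1, fun h4 => h2 ⟨h3, h4⟩⟩)
          · exact Or.inl (Or.inl ⟨h1, h3⟩)
        · exact Or.inl (Or.inr ⟨h1.1, h2⟩)
      calc mu.real (A ∆ (B ∩ B')) ≤ mu.real ((A ∆ B) ∪ (A ∆ B')) := measureReal_mono hsub
        _ ≤ mu.real (A ∆ B) + mu.real (A ∆ B') := measureReal_union_le _ _
        _ ≤ 2 * ε := by linarith
    have e5 : |mu.real A - mu.real (B ∩ B')| ≤ 2 * ε :=
      (abs_measureReal_sub_le_measureReal_symmDiff hA.nullMeasurableSet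
        (hBm.inter hBm').nullMeasurableSet).trans e4
    have e6 : |mu.real A - mu.real B| ≤ ε :=
      (abs_measureReal_sub_le_measureReal_symmDiff hA.nullMeasurableSet
        hBm.nullMeasurableSet).trans hAB'
    rw [e2'] at e5
    have a0 : 0 ≤ mu.real A := measureReal_nonneg
    have a1 : mu.real A ≤ 1 := measureReal_le_one
    have b0 : 0 ≤ mu.real B := measureReal_nonneg
    have b1 : mu.real B ≤ 1 := measureReal_le_one
    rw [abs_le] at e5 e6 ⊢
    constructor <;> nlinarith [e5.1, e5.2, e6.1, e6.2]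
  have h0 : |mu.real A - mu.real A * mu.real A| ≤ 0 := by
    refine le_of_forall_pos_le_add fun ε hε => ?_
    have := key (ε / 4) (by positivity)
    linarith
  have := abs_nonpos_iff.mp h0
  linarith

theorem erg_cm (hσ : ∀ s : Finset ι, ∃ n : ℕ, Disjoint s (s.image (σ^[n]))) :
    Ergodic (cm (Z := Z) σ) (Measure.infinitePi fun _ : ι => ν) := by
  refine ⟨mp_cm ν σ, ⟨fun s hs hs' => ?_⟩⟩
  have hsq := sq_of ν σ hσ s hs hs'
  set mu := Measure.infinitePi fun _ : ι => ν with hmu
  have h01 : mu.real s = 0 ∨ mu.real s = 1 := by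
    have : mu.real s * (1 - mu.real s) = 0 := by linarith
    rcases mul_eq_zero.1 this with h | h
    · exact Or.inl h
    · exact Or.inr (by linarith)
  rw [Filter.eventuallyConst_set']
  rcases h01 with h0 | h1
  · left
    rw [measureReal_eq_zero_iff] at h0
    exact ae_eq_empty.2 h0
  · right
    rw [ae_eq_univ]
    rw [← measureReal_eq_zero_iff, probReal_compl_eq_one_sub hs, h1, sub_self]

/-- A permutation without finite orbits moves every finite set off itself. -/
theorem move_off (hσ : ∀ (i : ι) (n : ℕ), σ^[n + 1] i ≠ i) (s : Finset ι) :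
    ∃ n : ℕ, Disjoint s (s.image (σ^[n])) := by
  have hinj : ∀ (i : ι) (m n : ℕ), m < n → σ^[m] i ≠ σ^[n] i := by
    intro i m n hmn h
    obtain ⟨k, rfl⟩ := Nat.exists_eq_add_of_lt hmn
    have h1 : σ^[m + k + 1] i = σ^[m] (σ^[k + 1] i) := by
      rw [← Function.iterate_add_apply]
      rfl
    rw [h1] at h
    exact hσ i k ((σ.injective.iterate m) h).symm
  have hfin : (⋃ a ∈ s, ⋃ b ∈ s, {n : ℕ | σ^[n] a = b}).Finite := by
    refine s.finite_toSet.biUnion fun a _ => s.finite_toSet.biUnion fun b _ => ?_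
    refine Set.Subsingleton.finite ?_
    intro m hm n hn
    by_contra hne
    have hm' : σ^[m] a = b := hm
    have hn' : σ^[n] a = b := hn
    rcases lt_or_gt_of_ne hne with h | h
    · exact hinj a m n h (hm'.trans hn'.symm)
    · exact hinj a n m h (hn'.trans hm'.symm)
  obtain ⟨n, hn⟩ := hfin.exists_notMem
  refine ⟨n, Finset.disjoint_left.2 fun b hb hb' => hn ?_⟩
  obtain ⟨a, ha, hab⟩ := Finset.mem_image.1 hb'
  exact mem_biUnion ha (mem_biUnion hb hab)

end erg

/-! ### Bernoulli shifts of groups -/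

section bern

variable {Γ : Type} [AddGroup Γ]

/-- The shift. -/
def sh (g : Γ) (ω : Γ → unitInterval) : Γ → unitInterval := fun h => ω (-g + h)

theorem sh_zero (ω : Γ → unitInterval) : sh 0 ω = ω := by
  funext h
  simp only [sh, neg_zero, zero_add]

theorem sh_add (g h : Γ) (ω : Γ → unitInterval) : sh (g + h) ω = sh g (sh h ω) := by
  funext k
  simp only [sh, neg_add_rev, add_assoc]

/-- The Bernoulli measure. -/
noncomputable def bm (Γ : Type) : Measure (Γ → unitInterval) :=
  Measure.infinitePi fun _ : Γ => (volume : Measure unitInterval)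

instance : IsProbabilityMeasure (bm Γ) := by
  unfold bm
  infer_instance

theorem mp_sh (g : Γ) : MeasurePreserving (sh g) (bm Γ) (bm Γ) :=
  mp_cm (volume : Measure unitInterval) (Equiv.addLeft (-g))

theorem meas_sh (g : Γ) : Measurable (sh g) := (mp_sh g).measurable

theorem erg_sh (v : Γ) (hv : ∀ n : ℕ, (n + 1) • v ≠ 0) : Ergodic (sh v) (bm Γ) := by
  classical
  refine erg_cm (volume : Measure unitInterval) (Equiv.addLeft (-v)) (move_off _ fun i n h => ?_)
  have h1 : ∀ m : ℕ, (Equiv.addLeft (-v))^[m] i = -(m • v) + i := by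
    intro m
    induction m with
    | zero => simp
    | succ m ih =>
      rw [Function.iterate_succ_apply', ih]
      show -v + (-(m • v) + i) = _
      rw [← add_assoc, ← neg_add_rev, succ_nsmul]
  rw [h1] at h
  have h2 : -((n + 1) • v) = 0 := by
    have : -((n + 1) • v) + i = 0 + i := by rw [h, zero_add]
    exact add_right_cancel this
  exact hv n (neg_eq_zero.1 h2)

theorem free_sh {g : Γ} (hg : g ≠ 0) : (bm Γ) {ω | sh g ω = ω} = 0 := by
  have hne : (-g : Γ) ≠ 0 := neg_ne_zero.2 hg
  have h1 : {ω : Γ → unitInterval | sh g ω = ω} ⊆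
      (fun ω : Γ → unitInterval => (ω (-g), ω 0)) ⁻¹' {p | p.1 = p.2} := by
    intro ω hω
    have : sh g ω 0 = ω 0 := congrFun hω 0
    simp only [sh, add_zero] at this
    exact this
  refine measure_mono_null h1 ?_
  have hd : MeasurableSet {p : unitInterval × unitInterval | p.1 = p.2} :=
    measurableSet_eq_fun measurable_fst measurable_snd
  have hm : Measurable fun ω : Γ → unitInterval => (ω (-g), ω 0) :=
    (measurable_pi_apply _).prodMk (measurable_pi_apply _)
  rw [← Measure.map_apply hm hd]
  unfold bm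
  rw [Measure.infinitePi_map_eval_prod hne, Measure.measure_prod_null hd]
  refine Filter.Eventually.of_forall fun x => ?_
  show (volume : Measure unitInterval) (Prod.mk x ⁻¹' {p | p.1 = p.2}) = 0
  have : Prod.mk x ⁻¹' {p : unitInterval × unitInterval | p.1 = p.2} = {x} := by
    ext y
    simp only [mem_preimage, mem_setOf_eq, mem_singleton_iff]
    exact eq_comm
  rw [this]
  exact measure_singleton x

end bern

end Pool.Agent.Y560.BE
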